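import Mathlib

set_option autoImplicit false

namespace Pool.Agent.H293R3.TA

open MvPolynomial

theorem subst_core {A : Type*} [CommRing A] {σ J : Type*} (w : σ → ℕ) (d m : ℕ)
    (G : MvPolynomial J A) (hG : G.IsHomogeneous m) (t : J → MvPolynomial σ A)
    (ht : ∀ j, IsWeightedHomogeneous w (t j) d) :
    IsWeightedHomogeneous w (bind₁ t G) (d * m) := by
  rw [G.as_sum, map_sum]
  refine IsWeightedHomogeneous.sum _ _ _ fun a ha => ?_
  rw [bind₁_monomial]
  have hdeg : Finsupp.degree a = m := by
    have h := hG (mem_support_iff.1 ha)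
    rw [Finsupp.degree_eq_weight_one]
    exact h
  have h1 : IsWeightedHomogeneous w (∏ i ∈ a.support, t i ^ a i) (∑ i ∈ a.support, a i • d) :=
    IsWeightedHomogeneous.prod _ _ _ fun i _ => (ht i).pow (a i)
  have h2 : ∑ i ∈ a.support, a i • d = d * m := by
    rw [← hdeg, Finsupp.degree_apply, ← Finset.sum_smul, smul_eq_mul, mul_comm]
  rw [h2] at h1
  exact h1.C_mul _

end Pool.Agent.H293R3.TA
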