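import Pool.Agent.Helper849.TA.Stmts
import Pool.Agent.H293R3.TA.SubstCore

set_option autoImplicit false

namespace Pool.Agent.H293R3.TA

open MvPolynomial

theorem taskSubst : Pool.Agent.Helper849.TA.TaskSubst := by
  intro A _ σ J _ w d m G hG t ht
  exact subst_core w d m G hG t ht

end Pool.Agent.H293R3.TA
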